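import Pool.Agent.Work.MP_898423_gt.H45.Cc

set_option autoImplicit false

/-!
# The cardinality of the space, and the Lindelof and sigma-compact levels
-/

namespace Pool.Agent.W898423

open Set Cardinal Topology

/-- Injections of the initial segments of the well-order of type `𝔠⁺` into the Cantor set. -/
lemma exists_reals_II : ∃ ρ : II → II → ℕ → Bool, ∀ e, Set.InjOn (ρ e) (Set.Iio e) := by
  classical
  have h : ∀ e : II, ∃ f : II → ℕ → Bool, Set.InjOn f (Set.Iio e) := by
    intro e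
    have h1 : #(Set.Iio e) ≤ #(ℕ → Bool) := by
      refine (mk_Iio_II e).trans ?_
      simp
    obtain ⟨f⟩ := (le_def _ _).1 h1
    refine ⟨fun a => if h : a < e then f ⟨a, h⟩ else fun _ => false, ?_⟩
    intro x hx y hy hxy
    simp only [Set.mem_Iio] at hx hy
    simp only [hx, hy, dif_pos] at hxy
    exact congrArg Subtype.val (f.injective hxy)
  choose ρ hρ using h
  exact ⟨ρ, hρ⟩

section

variable {ρ : II → II → ℕ → Bool} {μ : II → II → ℕ}

/-- The point with top `δ` and nothing else. -/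
noncomputable def basePt (ρ : II → II → ℕ → Bool) (μ : II → II → ℕ) (δ : II) : Pt ρ μ where
  top := δ
  dn := fun _ => ∅
  k := fun _ => 0
  l := fun _ => 0
  R := fun _ _ _ => false
  dn_lt := by simp
  dn_trans := by simp
  real := by simp
  kl := by simp
  lk := by simp
  inc := by simp
  out_dn := by simp
  out_k := by simp
  out_l := by simp
  out_R := by simp

/-- The complete code of a point. -/
noncomputable def encAll (p : Pt ρ μ) : II × Finset (II × Finset II × ℕ × ℕ × (ℕ → ℕ → Bool)) := by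
  classical
  exact (p.top, p.s.image (fun e => (e, p.dn e, p.k e, p.l e, p.R e)))

lemma encAll_spec {p p' : Pt ρ μ} (h : encAll p = encAll p') {e : II} (hep : e ∈ p.s) :
    e ∈ p'.s ∧ p.dn e = p'.dn e ∧ p.k e = p'.k e ∧ p.l e = p'.l e ∧ p.R e = p'.R e := by
  classical
  have h0 := congrArg Prod.snd h
  have h1 : (e, p.dn e, p.k e, p.l e, p.R e) ∈ (encAll p).2 := by
    unfold encAll
    exact Finset.mem_image.2 ⟨e, hep, rfl⟩
  rw [h0] at h1
  unfold encAll at h1
  obtain ⟨e', he', heq⟩ := Finset.mem_image.1 h1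
  simp only [Prod.mk.injEq] at heq
  obtain ⟨q1, q2, q3, q4, q5⟩ := heq
  subst q1
  exact ⟨he', q2.symm, q3.symm, q4.symm, q5.symm⟩

lemma encAll_injective : Function.Injective (encAll (ρ := ρ) (μ := μ)) := by
  intro p p' h
  have htop : p.top = p'.top := congrArg Prod.fst h
  have hs : p.s = p'.s := by
    ext e
    exact ⟨fun he => (encAll_spec h he).1, fun he => (encAll_spec h.symm he).1⟩
  have hdn : p.dn = p'.dn := by
    funext e
    by_cases he : e ∈ p.s
    · exact (encAll_spec h he).2.1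
    · have he2 := he
      rw [hs] at he2
      rw [Pt.mem_s, not_or] at he he2
      rw [p.out_dn e he.1 he.2, p'.out_dn e he2.1 he2.2]
  have hk : p.k = p'.k := by
    funext e
    by_cases he : e ∈ p.s
    · exact (encAll_spec h he).2.2.1
    · have he2 := he
      rw [hs] at he2
      rw [Pt.mem_s, not_or] at he he2
      rw [p.out_k e he.1 he.2, p'.out_k e he2.1 he2.2]
  have hl : p.l = p'.l := by
    funext e
    by_cases he : e ∈ p.s
    · exact (encAll_spec h he).2.2.2.1
    · have he2 := he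
      rw [hs] at he2
      rw [Pt.mem_s, not_or] at he he2
      rw [p.out_l e he.2, p'.out_l e he2.2]
  have hR : p.R = p'.R := by
    funext e
    by_cases he : e ∈ p.s
    · exact (encAll_spec h he).2.2.2.2
    · have he2 := he
      rw [hs] at he2
      rw [Pt.mem_s, not_or] at he he2
      funext i
      rw [p.out_R e i (by rw [p.out_k e he.1 he.2]; exact Nat.zero_le _),
        p'.out_R e i (by rw [p'.out_k e he2.1 he2.2]; exact Nat.zero_le _)]
  exact Pt.ext htop hdn hk hl hR

lemma mk_finset_le' (α : Type) {c : Cardinal.{0}} (hc : ℵ₀ ≤ c) (h : #α ≤ c) : #(Finset α) ≤ c := by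
  have h1 : #(Finset α) ≤ #(List α) :=
    mk_le_of_injective (f := Finset.toList) fun a b hab => by
      rw [← Finset.val_inj, ← Finset.coe_toList, ← Finset.coe_toList, hab]
  exact h1.trans ((mk_list_le_max α).trans (max_le hc h))

/-- The space has exactly `𝔠⁺` points. -/
theorem mk_Pt (ρ : II → II → ℕ → Bool) (μ : II → II → ℕ) : #(Pt ρ μ) = Order.succ 𝔠 := by
  have hc : (𝔠 : Cardinal.{0}) ≤ Order.succ 𝔠 := Order.le_succ _
  have h0 : ℵ₀ ≤ Order.succ (𝔠 : Cardinal.{0}) := aleph0_le_continuum.trans hc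
  apply le_antisymm
  · refine (mk_le_of_injective encAll_injective).trans ?_
    have hmul : ∀ a b : Cardinal.{0}, a ≤ Order.succ 𝔠 → b ≤ Order.succ 𝔠 →
        a * b ≤ Order.succ 𝔠 := fun a b ha hb =>
      (mul_le_mul' ha hb).trans (mul_eq_self h0).le
    have h1 : #II ≤ Order.succ 𝔠 := mk_II.le
    have h3 : #(ℕ → ℕ → Bool) ≤ Order.succ 𝔠 := by
      refine le_trans ?_ hc
      simp
    rw [mk_prod, Cardinal.lift_id, Cardinal.lift_id]
    refine hmul _ _ h1 (mk_finset_le' _ h0 ?_)
    simp only [mk_prod, Cardinal.lift_id]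
    refine hmul _ _ h1 (hmul _ _ (mk_finset_le' _ h0 h1) (hmul _ _ ?_ (hmul _ _ ?_ h3)))
    · rw [mk_nat]; exact h0
    · rw [mk_nat]; exact h0
  · have h2 : #II ≤ #(Pt ρ μ) :=
      mk_le_of_injective (f := basePt ρ μ) fun a b hab => congrArg Pt.top hab
    rwa [mk_II] at h2

/-- The points with top `δ` form a sigma-compact set. -/
theorem isSigmaCompact_level (hρ : ∀ e, Set.InjOn (ρ e) (Set.Iio e)) (δ : II) :
    IsSigmaCompact {p : Pt ρ μ | p.top = δ} := by
  refine ⟨fun K => {p : Pt ρ μ | p.top = δ ∧ p.k δ = K}, fun K => isCompact_level hρ δ K, ?_⟩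
  ext p
  simp

/-- The clopen sets form a basis. -/
theorem isTopologicalBasis_isClopen_Pt :
    TopologicalSpace.IsTopologicalBasis {U : Set (Pt ρ μ) | IsClopen U} := by
  refine TopologicalSpace.isTopologicalBasis_of_isOpen_of_nhds (fun U hU => hU.2) ?_
  intro p U hp hU
  obtain ⟨n, hn⟩ := isOpen_def.1 hU p hp
  exact ⟨bs n p, ⟨isClosed_bs n p, isOpen_bs n p⟩, self_mem_bs n p, hn⟩

end

/-- The space, with everything that is used of it. -/
theorem exists_space :
    ∃ (X : Type) (_ : TopologicalSpace X), T3Space X ∧ FirstCountableTopology X ∧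
      TopologicalSpace.IsTopologicalBasis {U : Set X | IsClopen U} ∧
      (∀ 𝒰 : Set (Set X), (∀ U ∈ 𝒰, IsOpen U ∧ U.Nonempty) → 𝒰.PairwiseDisjoint id →
        ∃ L : Set X, IsSigmaCompact L ∧ ∀ U ∈ 𝒰, (L ∩ U).Nonempty) ∧
      #X = Order.succ 𝔠 := by
  obtain ⟨μ, hμ⟩ := exists_mu
  obtain ⟨ρ, hρ⟩ := exists_reals_II
  refine ⟨Pt ρ μ, inferInstance, inferInstance, inferInstance, isTopologicalBasis_isClopen_Pt, ?_,
    mk_Pt ρ μ⟩
  intro 𝒰 hopen hdisj
  obtain ⟨δ, hδ⟩ := exists_bound hμ 𝒰 hopen hdisj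
  refine ⟨{p | p.top = δ}, isSigmaCompact_level hρ δ, fun U hU => ?_⟩
  obtain ⟨p, hp, hpδ⟩ := hδ U hU
  obtain ⟨n, hn⟩ := (hopen U hU).1 p hp
  obtain ⟨w, hw, hwδ⟩ := exists_mem_level p n δ hpδ
  exact ⟨w, hwδ, hn hw⟩

end Pool.Agent.W898423
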